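import Pool.Agent.TFC.Defs

set_option autoImplicit false

namespace TF34

open Finset Pool.Agent.TFC

/-- clusters with a choice (helper52): `k4 a b c v` complete graph; `k2 w w' c L` all edges between `w`, `w'` and
`insert c L`; `k11b w w' L` all edges between `w`, `w'` and `L`, and `w w'`; `k11c x y c L` all edges between `x`, `y`
and `insert c L`, and `x y` -/
inductive CC34 (V : Type) where
  | k4 (a b c v : V)
  | k2 (w w' c : V) (L : Finset V)
  | k11b (w w' : V) (L : Finset V)
  | k11c (x y c : V) (L : Finset V)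

variable {V : Type} [DecidableEq V]

/-- all edges between `x`, `y` and `L` -/
def hubs (x y : V) (L : Finset V) : Finset (Sym2 V) := L.image (fun l => s(x, l)) ∪ L.image (fun l => s(y, l))

/-- edges -/
def CC34.edges : CC34 V → Finset (Sym2 V)
  | .k4 a b c v => {s(a, b), s(a, c), s(a, v), s(b, c), s(b, v), s(c, v)}
  | .k2 w w' c L => hubs w w' (insert c L)
  | .k11b w w' L => insert s(w, w') (hubs w w' L)
  | .k11c x y c L => insert s(x, y) (hubs x y (insert c L))

/-- non-degenerate -/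
def CC34.Valid : CC34 V → Prop
  | .k4 a b c v => Dist4 a b c v
  | .k2 w w' c L => w ≠ w' ∧ w ≠ c ∧ w' ≠ c ∧ w ∉ L ∧ w' ∉ L ∧ c ∉ L ∧ L.Nonempty
  | .k11b w w' L => w ≠ w' ∧ w ∉ L ∧ w' ∉ L ∧ L.Nonempty
  | .k11c x y c L => x ≠ y ∧ x ≠ c ∧ y ≠ c ∧ x ∉ L ∧ y ∉ L ∧ c ∉ L

/-- units -/
noncomputable def CC34.units : CC34 V → List (Finset V × Finset V)
  | .k4 a b c v => [({a}, {v}), ({b}, {a, b, v}), ({c}, {a, b, c, v})]
  | .k2 w w' c L => L.toList.map (fun l => ({l}, {w, w'})) ++ [({w}, insert c L), ({w'}, {c})]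
  | .k11b w w' L => L.toList.map (fun l => ({l}, {w, w'})) ++ [({w}, insert w' L)]
  | .k11c x y c L => L.toList.map (fun l => ({l}, {x, y})) ++ [({x}, insert c (insert y L)), ({y}, {c, x})]

end TF34
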