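import Pool.Agent.TF34.Ver
import Pool.Agent.TF4.K1
import Pool.Agent.SQ34.Defs

set_option autoImplicit false

namespace TF34

open Finset Pool.Agent.TFC TF4
open scoped Pointwise Classical

/-- 2-factors as edge sets and as graphs -/
theorem fac_iff {V : Type} [Fintype V] [DecidableEq V] (G : SimpleGraph V) :
    (∃ F ⊆ G.edgeFinset, TF F ∧ SH.ShFree F) ↔ ∃ F, IsFac34 G F := by
  constructor
  · rintro ⟨F, hF, hT, hS⟩
    have hadj : ∀ u v, (SimpleGraph.fromEdgeSet (F : Set (Sym2 V))).Adj u v ↔ s(u, v) ∈ F := by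
      intro u v
      rw [SimpleGraph.fromEdgeSet_adj]
      constructor
      · intro h
        exact h.1
      · intro h
        refine ⟨h, ?_⟩
        intro huv
        exact hT.nl _ h (by simpa using huv)
    refine ⟨SimpleGraph.fromEdgeSet (F : Set (Sym2 V)), ⟨?_, ?_, ?_⟩, ?_⟩
    · intro u v h
      have h1 := hF ((hadj u v).mp h)
      rw [SimpleGraph.mem_edgeFinset, SimpleGraph.mem_edgeSet] at h1
      exact h1
    · intro v
      rw [K1_ncard _ F hadj v]
      exact hT.eq v
    · intro a b c d h1 h2 h3 h4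
      by_contra hc
      push Not at hc
      refine hS (Pool.Agent.TFC.sq a b c d) (Or.inr ⟨a, b, c, d, ⟨h1.ne, hc.1, h4.ne.symm, h2.ne, hc.2, h3.ne⟩, rfl⟩) ?_
      intro e he
      simp only [Pool.Agent.TFC.sq, mem_insert, mem_singleton] at he
      rcases he with rfl | rfl | rfl | rfl
      · exact (hadj _ _).mp h1
      · exact (hadj _ _).mp h2
      · exact (hadj _ _).mp h3
      · exact (hadj _ _).mp h4
    · intro a b c h1 h2 h3
      refine hS (SH.tr a b c) (Or.inl ⟨a, b, c, h1.ne, h3.ne.symm, h2.ne, rfl⟩) ?_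
      intro e he
      simp only [SH.tr, mem_insert, mem_singleton] at he
      rcases he with rfl | rfl | rfl
      · exact (hadj _ _).mp h1
      · exact (hadj _ _).mp h2
      · exact (hadj _ _).mp h3
  · rintro ⟨H, hH⟩
    have hadj : ∀ u v, H.Adj u v ↔ s(u, v) ∈ H.edgeFinset := by
      intro u v
      rw [SimpleGraph.mem_edgeFinset, SimpleGraph.mem_edgeSet]
    refine ⟨H.edgeFinset, ?_, ⟨?_, ?_⟩, ?_⟩
    · intro e he
      rw [SimpleGraph.mem_edgeFinset] at he ⊢
      exact SimpleGraph.edgeSet_mono hH.le he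
    · intro e he
      rw [SimpleGraph.mem_edgeFinset] at he
      exact H.not_isDiag_of_mem_edgeSet he
    · intro v
      rw [← K1_ncard H H.edgeFinset hadj v]
      exact hH.two v
    · rintro Z (⟨a, b, c, -, -, -, rfl⟩ | ⟨a, b, c, d, ⟨-, hac, -, -, hbd, -⟩, rfl⟩) hZ
      · exact hH.free3 a b c ((hadj _ _).mpr (hZ (by simp [SH.tr]))) ((hadj _ _).mpr (hZ (by simp [SH.tr])))
          ((hadj _ _).mpr (hZ (by simp [SH.tr])))
      · rcases hH.free a b c d ((hadj _ _).mpr (hZ (by simp [Pool.Agent.TFC.sq]))) ((hadj _ _).mpr (hZ (by simp [Pool.Agent.TFC.sq])))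
          ((hadj _ _).mpr (hZ (by simp [Pool.Agent.TFC.sq]))) ((hadj _ _).mpr (hZ (by simp [Pool.Agent.TFC.sq]))) with h | h
        · exact hac h
        · exact hbd h

end TF34
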