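import Pool.Agent.TF34.Ver
import Pool.Agent.TF4.K10

set_option autoImplicit false

namespace TF34

open Finset Pool.Agent.TFC TF4
open scoped Classical

theorem K10_key {n : ℕ} {w : List Bool} (hw : matB n w = true) (c : List Bool) (hc : matB n c = true) :
    (TF4.facB n w c = true ↔ IsFac (gr n w) (gr n c)) := by
  have hn : ∀ i : Fin n, {u | (gr n c).Adj i u}.ncard = ((List.range n).filter (fun j => bit n c i j)).length := by
    intro i
    rw [← ncard_filter]
    congr 1
    ext u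
    exact adj_gr hc i u
  rw [facB_iff']
  constructor
  · rintro ⟨-, h⟩
    refine ⟨?_, ?_, ?_⟩
    · intro i j hij
      rw [adj_gr hc] at hij
      rw [adj_gr hw]
      exact (h i i.2).1.1 j j.2 hij
    · intro i
      rw [hn]
      exact (h i i.2).1.2
    · intro a b d e h1 h2 h3 h4
      rw [adj_gr hc] at h1 h2 h3 h4
      rcases (h a a.2).2 b b.2 d d.2 e e.2 h1 h2 h3 h4 with h5 | h5
      · left; exact Fin.ext h5
      · right; exact Fin.ext h5
  · intro h
    refine ⟨hc, ?_⟩
    intro i hi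
    refine ⟨⟨?_, ?_⟩, ?_⟩
    · intro j hj hij
      have := h.le ((adj_gr hc ⟨i, hi⟩ ⟨j, hj⟩).2 hij)
      exact (adj_gr hw ⟨i, hi⟩ ⟨j, hj⟩).1 this
    · have := h.two ⟨i, hi⟩
      rw [hn] at this
      exact this
    · intro j hj k hk l hl h1 h2 h3 h4
      rcases h.free ⟨i, hi⟩ ⟨j, hj⟩ ⟨k, hk⟩ ⟨l, hl⟩ ((adj_gr hc _ _).2 h1) ((adj_gr hc _ _).2 h2)
        ((adj_gr hc _ _).2 h3) ((adj_gr hc _ _).2 h4) with h5 | h5
      · left; exact congrArg Fin.val h5
      · right; exact congrArg Fin.val h5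

theorem K10_facB {n : ℕ} {w c : List Bool} : facB n w c = true ↔ TF4.facB n w c = true ∧
    ∀ i < n, ∀ j < n, ∀ k < n, bit n c i j = true → bit n c j k = true → bit n c k i = true → False := by
  unfold facB
  simp only [Bool.and_eq_true, List.all_eq_true, List.mem_range, Bool.or_eq_true, Bool.not_eq_true']
  have hb : ∀ (b1 b2 b3 : Bool), ((b1 = false ∨ b2 = false) ∨ b3 = false) ↔
      (b1 = true → b2 = true → b3 = true → False) := by
    intro b1 b2 b3
    cases b1 <;> cases b2 <;> cases b3 <;> simp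
  simp only [hb]

theorem K10_iff {n : ℕ} {w : List Bool} (hw : matB n w = true) (c : List Bool) (hc : matB n c = true) :
    (facB n w c = true ↔ IsFac34 (gr n w) (gr n c)) := by
  rw [K10_facB, K10_key hw c hc]
  constructor
  · rintro ⟨h1, h2⟩
    refine ⟨h1, ?_⟩
    intro a b d h3 h4 h5
    rw [adj_gr hc] at h3 h4 h5
    exact h2 a a.2 b b.2 d d.2 h3 h4 h5
  · intro h
    refine ⟨h.toIsFac, ?_⟩
    intro i hi j hj k hk h3 h4 h5
    exact h.free3 ⟨i, hi⟩ ⟨j, hj⟩ ⟨k, hk⟩ ((adj_gr hc _ _).2 h3) ((adj_gr hc _ _).2 h4)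
      ((adj_gr hc _ _).2 h5)

/-- (TF34-K10) 2-factors as edge sets and as graphs, without triangles too. -/
theorem facB_iff {n : ℕ} {w : List Bool} (hw : matB n w = true) :
    (∃ F, IsFac34 (gr n w) F) ↔ ∃ c : List Bool, facB n w c = true := by
  constructor
  · rintro ⟨F, hF⟩
    obtain ⟨h1, h2⟩ := matB_code F
    refine ⟨code F, ?_⟩
    rw [K10_iff hw _ h1, h2]
    exact hF
  · rintro ⟨c, hc⟩
    have hm : matB n c = true := (facB_iff'.1 (K10_facB.1 hc).1).1
    exact ⟨gr n c, (K10_iff hw c hm).1 hc⟩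

theorem facB_len {n : ℕ} {w c : List Bool} (hw : matB n w = true) (h : facB n w c = true) :
    c.length = w.length := TF4.facB_len hw (K10_facB.1 h).1

end TF34
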