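import Pool.Agent.TF34.K4

set_option autoImplicit false

namespace TF34

open Finset Pool.Agent.TFC TF4
open scoped Pointwise Classical

private theorem K5_unfold (n : ℕ) (w : List Bool) (cls : List (List ℕ)) : clsB n w cls = true ↔
    (∀ q ∈ cls, cwf n w q = true) ∧
      ∀ u < n, ∀ v < n, (cls.filter (fun q => cedge q u v)).length ≤ 1 := by
  simp only [clsB, Bool.and_eq_true, List.all_eq_true, List.mem_range, decide_eq_true_eq]

private theorem K5_rep {n : ℕ} {cls : List (List ℕ)} {C : List (CC34 (Fin n))}
    (h : List.Forall₂ (Rep n) cls C) : (∀ c ∈ C, ∃ q ∈ cls, Rep n q c) ∧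
      ∀ q ∈ cls, ∃ c ∈ C, Rep n q c := by
  induction h with
  | nil => exact ⟨fun c hc => absurd hc List.not_mem_nil, fun c hc => absurd hc List.not_mem_nil⟩
  | @cons q c cls C hq _ ih =>
    constructor
    · intro c' hc'
      rcases List.mem_cons.1 hc' with rfl | hc'
      · exact ⟨q, List.mem_cons_self, hq⟩
      · obtain ⟨q', hq', hr⟩ := ih.1 c' hc'
        exact ⟨q', List.mem_cons_of_mem _ hq', hr⟩
    · intro q' hq'
      rcases List.mem_cons.1 hq' with rfl | hq'
      · exact ⟨c, List.mem_cons_self, hq⟩
      · obtain ⟨c', hc', hr⟩ := ih.2 q' hq'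
        exact ⟨c', List.mem_cons_of_mem _ hc', hr⟩

/-- (TF34-K5) families of clusters. K4 has `cwf_iff`, K2 has `cedge_iff` (use them as they stand).
PROOF. `clsB n w cls` is the conjunction of `∀ q ∈ cls, cwf n w q` and, for all `u, v < n`, `(cls.filter (fun q => cedge q u v)).length ≤ 1`.
(→) By `cwf_iff` every `q ∈ cls` has a cluster; induction on `cls` gives `C` with `List.Forall₂ (Rep n) cls C` and the second property.
Pairwise disjoint: induction on `cls` again (for `q :: cls` and `c :: C`: the lengths of the filters of `cls` are smaller). For `c' ∈ C`, `e` in both edge sets,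
`e = s(u, v)`: the code `q' ∈ cls` of `c'` has `cedge q' u v = true`, and `cedge q u v = true`, so the filter of `q :: cls` has length at least 2:
contradiction (`List.filter_cons_of_pos`, `List.length_pos_of_mem`, `List.mem_filter`).
(←) `cwf` by `cwf_iff`. For `u v`: induction on `Forall₂`: if `cedge q u v = true` for the head then no member of the tail has `cedge q' u v = true`
(disjointness and `cedge_iff` for `⟨u, _⟩`, `⟨v, _⟩`), so the filter of the tail is empty and the length is 1; otherwise the filter of the tail has length at most 1 by induction. -/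
theorem clsB_iff {n : ℕ} {w : List Bool} (hw : matB n w = true) (cls : List (List ℕ)) : clsB n w cls = true ↔
    ∃ C : List (CC34 (Fin n)), List.Forall₂ (Rep n) cls C ∧
      (∀ c ∈ C, c.Valid ∧ c.edges ⊆ (gr n w).edgeFinset) ∧
      (C.Pairwise fun c c' => Disjoint c.edges c'.edges) := by
  rw [K5_unfold]
  constructor
  · induction cls with
    | nil =>
      intro _
      exact ⟨[], List.Forall₂.nil, fun c hc => absurd hc List.not_mem_nil, List.Pairwise.nil⟩
    | cons q cls ih =>
      rintro ⟨h1, h2⟩
      have h2' : ∀ u < n, ∀ v < n, (cls.filter (fun q => cedge q u v)).length ≤ 1 := by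
        intro u hu v hv
        refine le_trans ?_ (h2 u hu v hv)
        rw [List.filter_cons]
        split
        · rw [List.length_cons]; omega
        · exact le_rfl
      obtain ⟨C, hC1, hC2, hC3⟩ := ih ⟨fun q' hq' => h1 q' (List.mem_cons_of_mem _ hq'), h2'⟩
      obtain ⟨c, hc1, hc2, hc3⟩ := (cwf_iff hw).1 (h1 q List.mem_cons_self)
      refine ⟨c :: C, List.Forall₂.cons hc1 hC1, ?_, ?_⟩
      · intro c' hc'
        rcases List.mem_cons.1 hc' with rfl | hc'
        · exact ⟨hc2, hc3⟩
        · exact hC2 c' hc'
      · refine List.Pairwise.cons ?_ hC3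
        intro c' hc'
        obtain ⟨q', hq', hr'⟩ := (K5_rep hC1).1 c' hc'
        rw [Finset.disjoint_left]
        intro e he he'
        induction e using Sym2.ind with
        | _ u v =>
          have a1 : cedge q u v = true := (cedge_iff hc1 hc2 u v).2 he
          have a2 : cedge q' u v = true := (cedge_iff hr' (hC2 c' hc').1 u v).2 he'
          have a3 : q' ∈ cls.filter (fun q => cedge q u v) := List.mem_filter.2 ⟨hq', a2⟩
          have a4 := List.length_pos_of_mem a3
          have a5 := h2 u u.2 v v.2
          rw [List.filter_cons, if_pos a1, List.length_cons] at a5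
          omega
  · rintro ⟨C, hC1, hC2, hC3⟩
    refine ⟨?_, ?_⟩
    · intro q hq
      obtain ⟨c, hc, hr⟩ := (K5_rep hC1).2 q hq
      exact (cwf_iff hw).2 ⟨c, hr, hC2 c hc⟩
    · intro u hu v hv
      induction hC1 with
      | nil => simp
      | @cons q c cls C hq hcl ih =>
        have ih' := ih (fun c' hc' => hC2 c' (List.mem_cons_of_mem _ hc')) (List.pairwise_cons.1 hC3).2
        rw [List.filter_cons]
        split
        · rename_i h1
          have hemp : cls.filter (fun q => cedge q u v) = [] := by
            rw [List.filter_eq_nil_iff]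
            intro q' hq' h2
            obtain ⟨c', hc', hr'⟩ := (K5_rep hcl).2 q' hq'
            have d := (List.pairwise_cons.1 hC3).1 c' hc'
            have e1 := (cedge_iff hq (hC2 c List.mem_cons_self).1 ⟨u, hu⟩ ⟨v, hv⟩).1 h1
            have e2 := (cedge_iff hr' (hC2 c' (List.mem_cons_of_mem _ hc')).1 ⟨u, hu⟩ ⟨v, hv⟩).1 h2
            exact Finset.disjoint_left.1 d e1 e2
          rw [hemp]
          simp
        · exact ih'

end TF34
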