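import Pool.Agent.TF34.Rep
import Pool.Agent.TF4.K3

set_option autoImplicit false

namespace TF34

open Finset Pool.Agent.TFC TF4
open scoped Pointwise Classical

theorem K3_fil {n : ℕ} (l : List (Fin n)) :
    (univ.filter (fun v : Fin n => (v : ℕ) ∈ l.map Fin.val)) = l.toFinset := by
  ext v
  simp only [mem_filter, mem_univ, true_and, List.mem_map, List.mem_toFinset]
  constructor
  · rintro ⟨y, hy, hxy⟩
    rwa [← Fin.val_injective hxy]
  · intro hx
    exact ⟨v, hx, rfl⟩

theorem K3_toU {n : ℕ} (l l' : List (Fin n)) :
    toU n (l.map Fin.val, l'.map Fin.val) = (l.toFinset, l'.toFinset) := by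
  unfold toU
  rw [← K3_fil l, ← K3_fil l']

theorem K3_leaves {n : ℕ} (w w' : Fin n) (ls : List (Fin n)) (hn : ls.Nodup)
    (r : List (List ℕ × List ℕ)) :
    sumU ((((ls.map Fin.val).map (fun l => ([l], [w.val, w'.val]))) ++ r).map (toU n)) =
      sumU ((ls.toFinset.toList.map (fun l => (({l} : Finset (Fin n)), ({w, w'} : Finset (Fin n))))) ++
        r.map (toU n)) := by
  have h2 : ((((ls.map Fin.val).map (fun l => ([l], [w.val, w'.val]))) ++ r).map (toU n)) =
        ls.map (fun l => (({l} : Finset (Fin n)), ({w, w'} : Finset (Fin n)))) ++ r.map (toU n) := by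
    rw [List.map_append, List.map_map, List.map_map]
    congr 1
    apply List.map_congr_left
    intro l _
    have := K3_toU [l] [w, w']
    simp only [List.map_cons, List.map_nil] at this
    simp only [Function.comp_apply, this]
    simp
  rw [h2]
  apply sumU_perm
  apply List.Perm.append_right
  apply List.Perm.map
  rw [List.perm_ext_iff_of_nodup hn (Finset.nodup_toList _)]
  intro v
  rw [Finset.mem_toList, List.mem_toFinset]

/-- (TF34-K3) the units of a cluster given by a list and the units of the cluster. -/
theorem sum_cunits {n : ℕ} {q : List ℕ} {c : CC34 (Fin n)} (h : Rep n q c) (hv : c.Valid) :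
    sumU ((cunits q).map (toU n)) = sumU c.units := by
  cases c with
  | k4 a b c d =>
    have hq : q = [1, a.val, b.val, c.val, d.val] := h
    subst hq
    have h1 : cunits [1, a.val, b.val, c.val, d.val] = [([a.val], [d.val]),
      ([b.val], [a.val, b.val, d.val]), ([c.val], [a.val, b.val, c.val, d.val])] := rfl
    rw [h1]
    have e1 := K3_toU [a] [d]
    have e2 := K3_toU [b] [a, b, d]
    have e3 := K3_toU [c] [a, b, c, d]
    simp only [List.map_cons, List.map_nil] at e1 e2 e3
    simp only [List.map_cons, List.map_nil, e1, e2, e3, CC34.units]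
    simp
  | k2 w w' c L =>
    obtain ⟨ls, rfl, hn, rfl⟩ := h
    have h1 : cunits (0 :: w.val :: w'.val :: c.val :: ls.map Fin.val) =
        (ls.map Fin.val).map (fun l => ([l], [w.val, w'.val])) ++
        [([w.val], c.val :: ls.map Fin.val), ([w'.val], [c.val])] := rfl
    rw [h1, K3_leaves w w' ls hn, CC34.units]
    congr 2
    have e1 := K3_toU [w] (c :: ls)
    have e2 := K3_toU [w'] [c]
    simp only [List.map_cons, List.map_nil] at e1 e2
    simp only [List.map_cons, List.map_nil, e1, e2]
    simp
  | k11b w w' L =>
    obtain ⟨ls, rfl, hn, rfl⟩ := h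
    have h1 : cunits (2 :: w.val :: w'.val :: ls.map Fin.val) =
        (ls.map Fin.val).map (fun l => ([l], [w.val, w'.val])) ++
        [([w.val], w'.val :: ls.map Fin.val)] := rfl
    rw [h1, K3_leaves w w' ls hn, CC34.units]
    congr 2
    have e1 := K3_toU [w] (w' :: ls)
    simp only [List.map_cons, List.map_nil] at e1
    simp only [List.map_cons, List.map_nil, e1]
    simp
  | k11c x y c L =>
    obtain ⟨ls, rfl, hn, rfl⟩ := h
    have h1 : cunits (3 :: x.val :: y.val :: c.val :: ls.map Fin.val) =
        (ls.map Fin.val).map (fun l => ([l], [x.val, y.val])) ++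
        [([x.val], y.val :: c.val :: ls.map Fin.val), ([y.val], [c.val, x.val])] := rfl
    rw [h1, K3_leaves x y ls hn, CC34.units]
    congr 2
    have e1 := K3_toU [x] (y :: c :: ls)
    have e2 := K3_toU [y] [c, x]
    simp only [List.map_cons, List.map_nil] at e1 e2
    simp only [List.map_cons, List.map_nil, e1, e2]
    have e3 : insert y (insert c ls.toFinset) = insert c (insert y ls.toFinset) :=
      Finset.insert_comm y c _
    simp [e3]

end TF34
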