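import Pool.Agent.TF34.K2
import Pool.Agent.TF34.K3
import Pool.Agent.TF4.K6

set_option autoImplicit false

namespace TF34

open Finset Pool.Agent.TFC TF4
open scoped Pointwise Classical

/-- (TF34-K6) a unit between two vertices is the unit of the edge. -/
theorem Un_single {V : Type*} [DecidableEq V] (u v : V) : Un {u} {v} = Ue s(u, v) := by
  ext x
  unfold Un Ue
  simp only [Set.mem_ofPred_eq, Finset.mem_singleton, exists_eq_left]
  constructor
  · rintro (h | h)
    · exact Or.inl h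
    · exact Or.inr ⟨u, v, rfl, h⟩
  · rintro (h | ⟨a, b, hab, h⟩)
    · exact Or.inl h
    · rw [Sym2.eq_iff] at hab
      rcases hab with ⟨rfl, rfl⟩ | ⟨rfl, rfl⟩
      · exact Or.inr h
      · exact Or.inr (by rw [h, add_comm])

theorem K6_mat {n : ℕ} {w : List Bool} (hw : matB n w = true) :
    (∀ i < n, bit n w i i = false) ∧ ∀ i < n, ∀ j < n, bit n w i j = bit n w j i := by
  unfold matB at hw
  simp only [Bool.and_eq_true, List.all_eq_true, decide_eq_true_eq, List.mem_range, Bool.not_eq_true'] at hw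
  exact ⟨fun i hi => (hw.2 i hi).1, fun i hi => (hw.2 i hi).2⟩

theorem K6_any {n : ℕ} {cls : List (List ℕ)} {C : List (CC34 (Fin n))}
    (h : List.Forall₂ (Rep n) cls C) (hv : ∀ c ∈ C, c.Valid) (u v : Fin n) :
    cls.any (fun q => cedge q u v) = true ↔ ∃ c ∈ C, s(u, v) ∈ c.edges := by
  induction h with
  | nil => simp
  | @cons q c cls C hqc h ih =>
    rw [List.any_cons, Bool.or_eq_true, ih (fun c hc => hv c (by simp [hc])),
      cedge_iff hqc (hv c (by simp)) u v]
    simp only [List.mem_cons, exists_eq_or_imp]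

/-- the list of the pairs of the ordinary units -/
def K6_pairs (n : ℕ) (w : List Bool) (cls : List (List ℕ)) : List (ℕ × ℕ) :=
  (List.range n).flatMap (fun u => ((List.range u).filter (fun v =>
    bit n w u v && !cls.any (fun q => cedge q u v))).map (fun v => (u, v)))

theorem K6_pairs_eq (n : ℕ) (w : List Bool) (cls : List (List ℕ)) :
    ounits n w cls = (K6_pairs n w cls).map (fun p => ([p.1], [p.2])) := by
  unfold ounits K6_pairs
  rw [List.map_flatMap]
  congr 1
  funext u
  rw [List.map_map]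
  rfl

theorem K6_mem {n : ℕ} {w : List Bool} {cls : List (List ℕ)} (p : ℕ × ℕ) :
    p ∈ K6_pairs n w cls ↔ p.1 < n ∧ p.2 < p.1 ∧ bit n w p.1 p.2 = true ∧
      ¬ cls.any (fun q => cedge q p.1 p.2) = true := by
  obtain ⟨a, b⟩ := p
  unfold K6_pairs
  simp only [List.mem_flatMap, List.mem_map, List.mem_filter, List.mem_range, Bool.and_eq_true,
    Bool.not_eq_true', Prod.mk.injEq, Bool.not_eq_true]
  constructor
  · rintro ⟨u, hu, v, ⟨hv, h1, h2⟩, rfl, rfl⟩
    exact ⟨hu, hv, h1, h2⟩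
  · rintro ⟨hu, hv, h1, h2⟩
    exact ⟨a, hu, b, ⟨hv, h1, h2⟩, rfl, rfl⟩

theorem K6_nodup (n : ℕ) (w : List Bool) (cls : List (List ℕ)) : (K6_pairs n w cls).Nodup := by
  unfold K6_pairs
  rw [List.nodup_flatMap]
  constructor
  · intro u _
    refine List.Nodup.map (fun a b h => (Prod.mk.inj h).2) ?_
    exact List.Nodup.filter _ List.nodup_range
  · refine List.Pairwise.imp_of_mem (R := fun a b => a ≠ b) ?_ List.nodup_range
    intro a b _ _ hab
    simp only [Function.onFun]
    intro x hx hy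
    rw [List.mem_map] at hx hy
    obtain ⟨s, -, rfl⟩ := hx
    obtain ⟨t, -, h⟩ := hy
    exact hab (Prod.mk.inj h).1.symm

theorem K6_toU {n : ℕ} (a b : ℕ) (ha : a < n) (hb : b < n) :
    toU n ([a], [b]) = ({⟨a, ha⟩}, {⟨b, hb⟩}) := by
  unfold toU
  refine Prod.ext ?_ ?_
  · ext x; simp [Fin.ext_iff]
  · ext x; simp [Fin.ext_iff]

/-- (TF34-K6) the ordinary units. -/
theorem sum_ounits {n : ℕ} {w : List Bool} (hw : matB n w = true) {cls : List (List ℕ)} {C : List (CC34 (Fin n))}
    (h : List.Forall₂ (Rep n) cls C) (hv : ∀ c ∈ C, c.Valid) :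
    sumU ((ounits n w cls).map (toU n)) =
      ∑ e ∈ (gr n w).edgeFinset.filter (fun e => ∀ c ∈ C, e ∉ c.edges), Ue e := by
  rw [sumU_eq, K6_pairs_eq, List.map_map, List.map_map, ← List.sum_toFinset _ (K6_nodup n w cls)]
  have hm : ∀ p : ℕ × ℕ, p ∈ (K6_pairs n w cls).toFinset ↔ p.1 < n ∧ p.2 < p.1 ∧ bit n w p.1 p.2 = true ∧
      ¬ cls.any (fun q => cedge q p.1 p.2) = true := fun p => by rw [List.mem_toFinset]; exact K6_mem p
  refine Finset.sum_bij (fun p hp => s((⟨p.1, ((hm p).1 hp).1⟩ : Fin n),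
    (⟨p.2, ((hm p).1 hp).2.1.trans ((hm p).1 hp).1⟩ : Fin n))) ?_ ?_ ?_ ?_
  · intro p hp
    obtain ⟨h1, h2, h3, h4⟩ := (hm p).1 hp
    rw [Finset.mem_filter, SimpleGraph.mem_edgeFinset, SimpleGraph.mem_edgeSet]
    refine ⟨⟨h3, ?_, ?_⟩, ?_⟩
    · rw [(K6_mat hw).2 _ (h2.trans h1) _ h1]; exact h3
    · intro h5
      have := congrArg Fin.val h5
      simp only at this
      omega
    · intro c hc hce
      exact h4 ((K6_any h hv ⟨p.1, h1⟩ ⟨p.2, h2.trans h1⟩).2 ⟨c, hc, hce⟩)
  · intro p hp q hq hpq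
    obtain ⟨h1, h2, -, -⟩ := (hm p).1 hp
    obtain ⟨h5, h6, -, -⟩ := (hm q).1 hq
    rw [Sym2.eq_iff] at hpq
    simp only [Fin.mk.injEq] at hpq
    rcases hpq with ⟨h7, h8⟩ | ⟨h7, h8⟩
    · exact Prod.ext h7 h8
    · omega
  · intro e he
    rw [Finset.mem_filter, SimpleGraph.mem_edgeFinset] at he
    obtain ⟨he, hc⟩ := he
    have key : ∀ a b : Fin n, b < a → s(a, b) ∈ (gr n w).edgeSet → (∀ c ∈ C, s(a, b) ∉ c.edges) →
        ((a : ℕ), (b : ℕ)) ∈ (K6_pairs n w cls).toFinset := by
      intro a b hab hab' hcc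
      rw [SimpleGraph.mem_edgeSet] at hab'
      refine (hm _).2 ⟨a.2, hab, hab'.1, ?_⟩
      intro hany
      obtain ⟨c, hc, hce⟩ := (K6_any h hv a b).1 hany
      exact hcc c hc hce
    induction e using Sym2.ind with
    | _ a b =>
      rcases lt_trichotomy a b with hab | hab | hab
      · refine ⟨((b : ℕ), (a : ℕ)), key b a hab (by rw [Sym2.eq_swap]; exact he)
          (fun c hc' => by rw [Sym2.eq_swap]; exact hc c hc'), ?_⟩
        simp only [Fin.eta]
        exact Sym2.eq_swap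
      · subst hab
        rw [SimpleGraph.mem_edgeSet] at he
        exact absurd rfl he.2.2
      · refine ⟨((a : ℕ), (b : ℕ)), key a b hab he hc, ?_⟩
        simp only [Fin.eta]
  · intro p hp
    obtain ⟨h1, h2, h3, h4⟩ := (hm p).1 hp
    simp only [Function.comp_apply]
    rw [K6_toU p.1 p.2 h1 (h2.trans h1)]
    exact Un_single _ _

theorem K6_append {V : Type*} [DecidableEq V] (us vs : List (Finset V × Finset V)) :
    sumU (us ++ vs) = sumU us + sumU vs := by
  rw [sumU_eq, sumU_eq, sumU_eq, List.map_append, List.sum_append]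

/-- (TF34-K6) all units. -/
theorem sum_units {n : ℕ} {w : List Bool} (hw : matB n w = true) {cls : List (List ℕ)} {C : List (CC34 (Fin n))}
    (h : List.Forall₂ (Rep n) cls C) (hv : ∀ c ∈ C, c.Valid) :
    sumU ((units n w cls).map (toU n)) = sumU (C.flatMap CC34.units) +
      ∑ e ∈ (gr n w).edgeFinset.filter (fun e => ∀ c ∈ C, e ∉ c.edges), Ue e := by
  unfold units
  rw [List.map_append, K6_append, sum_ounits hw h hv]
  congr 1
  clear hw
  induction h with
  | nil => rfl
  | @cons q c cls C hqc h ih =>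
    rw [List.flatMap_cons, List.flatMap_cons, List.map_append, K6_append, K6_append,
      ih (fun c hc => hv c (by simp [hc])), sum_cunits hqc (hv c (by simp))]

end TF34
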