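import Pool.Agent.TF34.K2
import Pool.Agent.TF4.K9

set_option autoImplicit false

namespace TF34

open Finset Pool.Agent.TFC TF4

/-- specification of `cwf` -/
theorem K9_cwf {n : ℕ} {w : List Bool} {q : List ℕ} (h : cwf n w q = true) :
    ∃ a b c d r, q = a :: b :: c :: d :: r ∧ (b :: c :: d :: r).Nodup ∧
      (∀ x ∈ b :: c :: d :: r, x < n) ∧ ((a = 0 ∧ r ≠ []) ∨ (a = 1 ∧ ∃ e, r = [e]) ∨ a = 2 ∨ a = 3) := by
  unfold cwf at h
  simp only [Bool.and_eq_true, nodupB_iff, List.all_eq_true, decide_eq_true_eq] at h
  obtain ⟨⟨⟨⟨h1, h2⟩, hk⟩, h3⟩, -⟩ := h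
  have h5 : 4 ≤ q.length ∧ (q.getD 0 0 = 0 → 5 ≤ q.length) ∧ (q.getD 0 0 = 1 → q.length = 5) := by
    by_cases h0 : q.getD 0 0 = 0
    · rw [if_pos h0] at h3
      simp only [decide_eq_true_eq] at h3
      exact ⟨by omega, fun _ => h3, fun h => by omega⟩
    · rw [if_neg h0] at h3
      by_cases h01 : q.getD 0 0 = 1
      · rw [if_pos h01] at h3
        simp only [decide_eq_true_eq] at h3
        exact ⟨by omega, fun _ => by omega, fun _ => h3⟩
      · rw [if_neg h01] at h3
        simp only [decide_eq_true_eq] at h3
        exact ⟨h3, fun h => absurd h h0, fun h => absurd h h01⟩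
  obtain ⟨h5, h6, h7⟩ := h5
  match q, h5, h6, h7, hk, h1, h2 with
  | a :: b :: c :: d :: r, h5, h6, h7, hk, h1, h2 =>
    refine ⟨a, b, c, d, r, rfl, by simpa using h1, by simpa using h2, ?_⟩
    have hk' : a ≤ 3 := hk
    have h6' : a = 0 → 5 ≤ (a :: b :: c :: d :: r).length := h6
    have h7' : a = 1 → (a :: b :: c :: d :: r).length = 5 := h7
    simp only [List.length_cons] at h6' h7'
    have ha : a = 0 ∨ a = 1 ∨ a = 2 ∨ a = 3 := by omega
    rcases ha with ha | ha | ha | ha
    · left
      refine ⟨ha, ?_⟩
      have := h6' ha
      intro hr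
      rw [hr] at this
      simp at this
    · right; left
      refine ⟨ha, ?_⟩
      have := h7' ha
      exact List.length_eq_one_iff.1 (by omega)
    · right; right; left; exact ha
    · right; right; right; exact ha

theorem K9_all {n : ℕ} {w : List Bool} {cls : List (List ℕ)} (h : clsB n w cls = true) :
    (∀ q ∈ cls, cwf n w q = true) ∧
    ∀ u < n, ∀ v < n, (cls.filter (fun q => cedge q u v)).length ≤ 1 := by
  unfold clsB at h
  simp only [Bool.and_eq_true, List.all_eq_true, decide_eq_true_eq, List.mem_range] at h
  exact h

theorem units_lt {n : ℕ} {w : List Bool} {cls : List (List ℕ)} (h : clsB n w cls = true) :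
    ∀ u ∈ units n w cls, (∀ s ∈ u.1, s < n) ∧ ∀ t ∈ u.2, t < n := by
  intro u hu
  unfold units at hu
  rw [List.mem_append] at hu
  rcases hu with hu | hu
  · rw [List.mem_flatMap] at hu
    obtain ⟨q, hq, hu⟩ := hu
    obtain ⟨a, b, c, d, r, rfl, -, hlt, ha⟩ := K9_cwf ((K9_all h).1 q hq)
    have hb : b < n := hlt b (by simp)
    have hc : c < n := hlt c (by simp)
    have hd : d < n := hlt d (by simp)
    have hr : ∀ x ∈ r, x < n := fun x hx => hlt x (by simp [hx])
    rcases ha with ⟨rfl, -⟩ | ⟨rfl, e, rfl⟩ | rfl | rfl
    · simp only [cunits, List.getD_cons_zero, List.getD_cons_succ, List.drop_succ_cons, List.drop_zero, if_true,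
        List.mem_append, List.mem_map, List.mem_cons, List.not_mem_nil, or_false] at hu
      rcases hu with ⟨l, hl, rfl⟩ | rfl | rfl
      · simp only [List.mem_cons, List.not_mem_nil, or_false]
        constructor
        · rintro s rfl; exact hr _ hl
        · rintro s (rfl | rfl)
          · exact hb
          · exact hc
      · simp only [List.mem_cons, List.not_mem_nil, or_false]
        constructor
        · rintro s rfl; exact hb
        · rintro s (rfl | hs)
          · exact hd
          · exact hr _ hs
      · simp only [List.mem_cons, List.not_mem_nil, or_false]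
        constructor
        · rintro s rfl; exact hc
        · rintro s rfl; exact hd
    · have he : e < n := hr e (by simp)
      have h1 : cunits [1, b, c, d, e] = [([b], [e]), ([c], [b, c, e]), ([d], [b, c, d, e])] := rfl
      rw [h1] at hu
      simp only [List.mem_cons, List.not_mem_nil, or_false] at hu
      rcases hu with rfl | rfl | rfl
      · simp only [List.mem_cons, List.not_mem_nil, or_false]
        constructor
        · rintro s rfl; exact hb
        · rintro s rfl; exact he
      · simp only [List.mem_cons, List.not_mem_nil, or_false]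
        constructor
        · rintro s rfl; exact hc
        · rintro s (rfl | rfl | rfl) <;> assumption
      · simp only [List.mem_cons, List.not_mem_nil, or_false]
        constructor
        · rintro s rfl; exact hd
        · rintro s (rfl | rfl | rfl | rfl) <;> assumption
    · have h1 : cunits (2 :: b :: c :: d :: r) = (d :: r).map (fun l => ([l], [b, c])) ++
          [([b], c :: d :: r)] := rfl
      rw [h1] at hu
      simp only [List.mem_append, List.mem_map, List.mem_cons, List.not_mem_nil, or_false] at hu
      rcases hu with ⟨l, hl, rfl⟩ | rfl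
      · simp only [List.mem_cons, List.not_mem_nil, or_false]
        constructor
        · rintro s rfl
          rcases hl with rfl | hl
          · exact hd
          · exact hr _ hl
        · rintro s (rfl | rfl)
          · exact hb
          · exact hc
      · simp only [List.mem_cons, List.not_mem_nil, or_false]
        constructor
        · rintro s rfl; exact hb
        · rintro s (rfl | rfl | hs)
          · exact hc
          · exact hd
          · exact hr _ hs
    · have h1 : cunits (3 :: b :: c :: d :: r) = r.map (fun l => ([l], [b, c])) ++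
          [([b], c :: d :: r), ([c], [d, b])] := rfl
      rw [h1] at hu
      simp only [List.mem_append, List.mem_map, List.mem_cons, List.not_mem_nil, or_false] at hu
      rcases hu with ⟨l, hl, rfl⟩ | rfl | rfl
      · simp only [List.mem_cons, List.not_mem_nil, or_false]
        constructor
        · rintro s rfl; exact hr _ hl
        · rintro s (rfl | rfl)
          · exact hb
          · exact hc
      · simp only [List.mem_cons, List.not_mem_nil, or_false]
        constructor
        · rintro s rfl; exact hb
        · rintro s (rfl | rfl | hs)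
          · exact hc
          · exact hd
          · exact hr _ hs
      · simp only [List.mem_cons, List.not_mem_nil, or_false]
        constructor
        · rintro s rfl; exact hc
        · rintro s (rfl | rfl)
          · exact hd
          · exact hb
  · unfold ounits at hu
    simp only [List.mem_flatMap, List.mem_map, List.mem_filter, List.mem_range] at hu
    obtain ⟨a, ha, b, ⟨hb, -⟩, rfl⟩ := hu
    simp only [List.mem_cons, List.not_mem_nil, or_false]
    constructor
    · rintro s rfl; exact ha
    · rintro s rfl; omega

theorem K9_count {n : ℕ} : ∀ {cls : List (List ℕ)},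
    (∀ q ∈ cls, ∃ u < n, ∃ v < n, cedge q u v = true) →
    cls.length ≤ ∑ p ∈ Finset.range n ×ˢ Finset.range n, (cls.filter (fun q => cedge q p.1 p.2)).length := by
  intro cls
  induction cls with
  | nil => intro _; simp
  | cons q cls ih =>
    intro h
    obtain ⟨u, hu, v, hv, huv⟩ := h q (by simp)
    have h1 := ih (fun q hq => h q (by simp [hq]))
    have h2 : ∑ p ∈ Finset.range n ×ˢ Finset.range n, ((q :: cls).filter (fun q => cedge q p.1 p.2)).length =
        ∑ p ∈ Finset.range n ×ˢ Finset.range n, ((if cedge q p.1 p.2 = true then 1 else 0) +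
          (cls.filter (fun q => cedge q p.1 p.2)).length) := by
      refine Finset.sum_congr rfl fun p _ => ?_
      rw [List.filter_cons]
      by_cases hp : cedge q p.1 p.2 = true
      · simp only [hp, if_true, List.length_cons]; omega
      · simp only [hp, if_false]; simp
    rw [h2, Finset.sum_add_distrib, List.length_cons]
    have h3 : 1 ≤ ∑ p ∈ Finset.range n ×ˢ Finset.range n, (if cedge q p.1 p.2 = true then 1 else 0) := by
      have h4 : ((u, v) : ℕ × ℕ) ∈ Finset.range n ×ˢ Finset.range n := by
        simp only [Finset.mem_product, Finset.mem_range]; exact ⟨hu, hv⟩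
      have := Finset.single_le_sum (f := fun p : ℕ × ℕ => if cedge q p.1 p.2 = true then 1 else 0)
        (fun _ _ => Nat.zero_le _) h4
      simpa only [huv, if_true] using this
    omega

/-- (TF34-K9) sizes of the clusters. -/
theorem cls_size {n : ℕ} {w : List Bool} {cls : List (List ℕ)} (h : clsB n w cls = true) :
    cls.length ≤ n * n ∧ (∀ q ∈ cls, q.length ≤ n + 1) ∧ ∀ q ∈ cls, ∀ x ∈ q, x ≤ n := by
  obtain ⟨h1, h2⟩ := K9_all h
  refine ⟨?_, ?_, ?_⟩
  · refine le_trans (K9_count (n := n) ?_) ?_
    · intro q hq
      obtain ⟨a, b, c, d, r, rfl, hnd, hlt, ha⟩ := K9_cwf (h1 q hq)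
      have hb : b < n := hlt b (by simp)
      have hd : d < n := hlt d (by simp)
      have hbd : b ≠ d := by
        intro hbd; subst hbd
        simp at hnd
      refine ⟨b, hb, d, hd, ?_⟩
      rcases ha with ⟨rfl, -⟩ | ⟨rfl, e, rfl⟩ | rfl | rfl
      · simp [cedge, memB]
      · simp [cedge, memB, hbd]
      · simp [cedge, memB]
      · simp [cedge, memB]
    · refine le_trans (Finset.sum_le_sum (g := fun _ => 1) ?_) (by simp)
      intro p hp
      simp only [Finset.mem_product, Finset.mem_range] at hp
      exact h2 p.1 hp.1 p.2 hp.2
  · intro q hq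
    obtain ⟨a, b, c, d, r, rfl, hnd, hlt, ha⟩ := K9_cwf (h1 q hq)
    have := K9_nodup_len hnd hlt
    simp only [List.length_cons] at this ⊢
    omega
  · intro q hq x hx
    obtain ⟨a, b, c, d, r, rfl, hnd, hlt, ha⟩ := K9_cwf (h1 q hq)
    have hn := K9_nodup_len hnd hlt
    simp only [List.length_cons] at hn
    rw [List.mem_cons] at hx
    rcases hx with rfl | hx
    · rcases ha with ⟨rfl, -⟩ | ⟨rfl, -⟩ | rfl | rfl <;> omega
    · exact (hlt x hx).le

/-- (TF34-K9) number of units. -/
theorem units_size {n : ℕ} {w : List Bool} {cls : List (List ℕ)} (h : clsB n w cls = true) :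
    (units n w cls).length ≤ n * n * (n + 4) + n * n := by
  obtain ⟨h1, h2, h3⟩ := cls_size h
  unfold units
  rw [List.length_append]
  refine Nat.add_le_add ?_ ?_
  · refine le_trans (K9_flat _ (n + 4) _ ?_) (Nat.mul_le_mul_right _ h1)
    intro q hq
    have h4 := h2 q hq
    unfold cunits
    split_ifs
    · simp only [List.length_append, List.length_map, List.length_drop, List.length_cons, List.length_nil]
      omega
    · simp only [List.length_cons, List.length_nil]
      obtain ⟨a, b, c, d, r, rfl, hnd, hlt, ha⟩ := K9_cwf ((K9_all h).1 q hq)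
      simp only [List.length_cons] at h4
      omega
    · simp only [List.length_append, List.length_map, List.length_drop, List.length_cons, List.length_nil]
      omega
    · simp only [List.length_append, List.length_map, List.length_drop, List.length_cons, List.length_nil]
      omega
  · unfold ounits
    refine le_trans (K9_flat _ n _ ?_) (by simp)
    intro u hu
    rw [List.mem_range] at hu
    rw [List.length_map]
    refine le_trans (List.length_filter_le _ _) ?_
    rw [List.length_range]
    exact hu.le

end TF34
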