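import Pool.Agent.TF34.Ver
import Pool.Agent.TF4.PTV

set_option autoImplicit false

/-! [TF34] the verifiers run in polynomial time -/

namespace TF34

open Pool.Agent.Lib.helper60 TF4

section

variable {ι : Type} [DEnc ι]

theorem pt_cedge {q : ι → List ℕ} {u v : ι → ℕ} (hq : PT q) (hu : PT u) (hv : PT v) :
    PT (fun x => cedge (q x) (u x) (v x)) := by
  unfold cedge
  have g : ∀ k : ℕ, PT (fun x => (q x).getD k 0) := fun k => PT.getD hq (PT.const k) (PT.const 0)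
  have d : ∀ k : ℕ, PT (fun x => (q x).drop k) := fun k => PT.drop (PT.const k) hq
  refine PT.ite (PT.neq (g 0) (PT.const 1)) ?_ ?_
  · exact PT.band (PT.band (pt_memB hu (d 1)) (pt_memB hv (d 1))) (PT.bnot (PT.neq hu hv))
  · refine PT.bor (PT.bor ?_ ?_) ?_
    · exact PT.band (PT.bor (PT.neq hu (g 1)) (PT.neq hu (g 2))) (pt_memB hv (d 3))
    · exact PT.band (PT.bor (PT.neq hv (g 1)) (PT.neq hv (g 2))) (pt_memB hu (d 3))
    · exact PT.band (PT.nle (PT.const 2) (g 0)) (PT.bor (PT.band (PT.neq hu (g 1)) (PT.neq hv (g 2)))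
        (PT.band (PT.neq hu (g 2)) (PT.neq hv (g 1))))

theorem pt_cwf {n : ι → ℕ} {w : ι → List Bool} {q : ι → List ℕ} (hn : PT n) (hw : PT w) (hq : PT q) :
    PT (fun x => cwf (n x) (w x) (q x)) := by
  unfold cwf
  have g : PT (fun x => (q x).getD 0 0) := PT.getD hq (PT.const 0) (PT.const 0)
  have d : PT (fun x => (q x).drop 1) := PT.drop (PT.const 1) hq
  refine PT.band (PT.band (PT.band (PT.band (pt_nodupB d) ?_) (PT.nle g (PT.const 3))) ?_) ?_
  · exact PT.all (p := fun y : ι × ℕ => decide (y.2 < n y.1)) d (PT.nlt PT.snd (hn.comp PT.fst))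
  · refine PT.ite (PT.neq g (PT.const 0)) (PT.nle (PT.const 5) (PT.length hq)) ?_
    exact PT.ite (PT.neq g (PT.const 1)) (PT.neq (PT.length hq) (PT.const 5))
      (PT.nle (PT.const 4) (PT.length hq))
  · refine PT.all (p := fun y : ι × ℕ => (List.range (n y.1)).all (fun v =>
      !cedge (q y.1) y.2 v || bit (n y.1) (w y.1) y.2 v)) (PT.range hn) ?_
    refine PT.all (p := fun z : (ι × ℕ) × ℕ => !cedge (q z.1.1) z.1.2 z.2 ||
      bit (n z.1.1) (w z.1.1) z.1.2 z.2) (PT.range (hn.comp PT.fst)) ?_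
    have hn' : PT (fun z : (ι × ℕ) × ℕ => n z.1.1) := hn.comp PT.fst.p1
    have hw' : PT (fun z : (ι × ℕ) × ℕ => w z.1.1) := hw.comp PT.fst.p1
    have hq' : PT (fun z : (ι × ℕ) × ℕ => q z.1.1) := hq.comp PT.fst.p1
    exact PT.bor (PT.bnot (pt_cedge hq' PT.fst.p2 PT.snd)) (pt_bit hn' hw' PT.fst.p2 PT.snd)

theorem pt_cunits {q : ι → List ℕ} (hq : PT q) : PT (fun x => cunits (q x)) := by
  unfold cunits
  have g : ∀ k : ℕ, PT (fun x => (q x).getD k 0) := fun k => PT.getD hq (PT.const k) (PT.const 0)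
  have d : ∀ k : ℕ, PT (fun x => (q x).drop k) := fun k => PT.drop (PT.const k) hq
  have s : ∀ {κ : Type} [DEnc κ] {f : κ → ℕ}, PT f → PT (fun x => [f x]) := fun hf =>
    PT.cons hf (PT.const [])
  have m : ∀ k : ℕ, PT (fun x => ((q x).drop k).map (fun l => ([l], [(q x).getD 1 0, (q x).getD 2 0]))) := by
    intro k
    refine PT.map (g := fun y : ι × ℕ => ([y.2], [(q y.1).getD 1 0, (q y.1).getD 2 0])) (d k) ?_
    exact PT.pair (s PT.snd) (PT.cons ((g 1).comp PT.fst) (s ((g 2).comp PT.fst)))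
  refine PT.ite (PT.neq (g 0) (PT.const 0)) ?_ (PT.ite (PT.neq (g 0) (PT.const 1)) ?_
    (PT.ite (PT.neq (g 0) (PT.const 2)) ?_ ?_))
  · exact PT.append (m 4) (PT.cons (PT.pair (s (g 1)) (d 3))
      (PT.cons (PT.pair (s (g 2)) (s (g 3))) (PT.const [])))
  · exact PT.cons (PT.pair (s (g 1)) (s (g 4))) (PT.cons (PT.pair (s (g 2)) (PT.cons (g 1) (PT.cons (g 2)
      (s (g 4))))) (PT.cons (PT.pair (s (g 3)) (d 1)) (PT.const [])))
  · exact PT.append (m 3) (PT.cons (PT.pair (s (g 1)) (d 2)) (PT.const []))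
  · exact PT.append (m 4) (PT.cons (PT.pair (s (g 1)) (d 2))
      (PT.cons (PT.pair (s (g 2)) (PT.cons (g 3) (s (g 1)))) (PT.const [])))

theorem pt_clsB {n : ι → ℕ} {w : ι → List Bool} {c : ι → List (List ℕ)} (hn : PT n) (hw : PT w)
    (hc : PT c) : PT (fun x => clsB (n x) (w x) (c x)) := by
  unfold clsB
  refine PT.band ?_ ?_
  · exact PT.all (p := fun y : ι × List ℕ => cwf (n y.1) (w y.1) y.2) hc
      (pt_cwf (hn.comp PT.fst) (hw.comp PT.fst) PT.snd)
  · refine PT.all (p := fun y : ι × ℕ => (List.range (n y.1)).all (fun v =>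
      decide (((c y.1).filter (fun q => cedge q y.2 v)).length ≤ 1))) (PT.range hn) ?_
    refine PT.all (p := fun z : (ι × ℕ) × ℕ =>
      decide (((c z.1.1).filter (fun q => cedge q z.1.2 z.2)).length ≤ 1)) (PT.range (hn.comp PT.fst)) ?_
    refine PT.nle (PT.length ?_) (PT.const 1)
    refine PT.filter (p := fun t : ((ι × ℕ) × ℕ) × List ℕ => cedge t.2 t.1.1.2 t.1.2) (hc.comp PT.fst.p1) ?_
    exact pt_cedge PT.snd PT.fst.p1.p2 PT.fst.p2

theorem pt_ounits {n : ι → ℕ} {w : ι → List Bool} {c : ι → List (List ℕ)} (hn : PT n) (hw : PT w)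
    (hc : PT c) : PT (fun x => ounits (n x) (w x) (c x)) := by
  unfold ounits
  refine PT.flatMap (g := fun y : ι × ℕ => ((List.range y.2).filter (fun v =>
    bit (n y.1) (w y.1) y.2 v && !(c y.1).any (fun q => cedge q y.2 v))).map (fun v => ([y.2], [v])))
    (PT.range hn) ?_
  refine PT.map (g := fun z : (ι × ℕ) × ℕ => ([z.1.2], [z.2])) ?_ ?_
  · refine PT.filter (p := fun z : (ι × ℕ) × ℕ => bit (n z.1.1) (w z.1.1) z.1.2 z.2 &&
      !(c z.1.1).any (fun q => cedge q z.1.2 z.2)) (PT.range PT.snd) ?_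
    refine PT.band (pt_bit (hn.comp PT.fst.p1) (hw.comp PT.fst.p1) PT.fst.p2 PT.snd) (PT.bnot ?_)
    exact PT.any (p := fun t : ((ι × ℕ) × ℕ) × List ℕ => cedge t.2 t.1.1.2 t.1.2) (hc.comp PT.fst.p1)
      (pt_cedge PT.snd PT.fst.p1.p2 PT.fst.p2)
  · exact PT.pair (PT.cons PT.fst.p2 (PT.const [])) (PT.cons PT.snd (PT.const []))

theorem pt_units {n : ι → ℕ} {w : ι → List Bool} {c : ι → List (List ℕ)} (hn : PT n) (hw : PT w)
    (hc : PT c) : PT (fun x => units (n x) (w x) (c x)) := by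
  unfold units
  exact PT.append (PT.flatMap (g := fun y : ι × List ℕ => cunits y.2) hc (pt_cunits PT.snd))
    (pt_ounits hn hw hc)

theorem pt_facB {n : ι → ℕ} {w c : ι → List Bool} (hn : PT n) (hw : PT w) (hc : PT c) :
    PT (fun x => facB (n x) (w x) (c x)) := by
  unfold facB
  refine PT.band (TF4.pt_facB hn hw hc) ?_
  refine PT.all (p := fun y : ι × ℕ =>
    (List.range (n y.1)).all (fun j => (List.range (n y.1)).all (fun k =>
      !bit (n y.1) (c y.1) y.2 j || !bit (n y.1) (c y.1) j k || !bit (n y.1) (c y.1) k y.2))) (PT.range hn) ?_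
  have b : ∀ {κ : Type} [DEnc κ] {f : κ → ι} {i j : κ → ℕ}, PT f → PT i → PT j →
      PT (fun z => bit (n (f z)) (c (f z)) (i z) (j z)) := fun hf hi hj =>
    pt_bit (hn.comp hf) (hc.comp hf) hi hj
  refine PT.all (p := fun z : (ι × ℕ) × ℕ => (List.range (n z.1.1)).all (fun k =>
      !bit (n z.1.1) (c z.1.1) z.1.2 z.2 || !bit (n z.1.1) (c z.1.1) z.2 k ||
      !bit (n z.1.1) (c z.1.1) k z.1.2)) (PT.range (hn.comp PT.fst)) ?_
  refine PT.all (p := fun t : ((ι × ℕ) × ℕ) × ℕ =>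
      !bit (n t.1.1.1) (c t.1.1.1) t.1.1.2 t.1.2 || !bit (n t.1.1.1) (c t.1.1.1) t.1.2 t.2 ||
      !bit (n t.1.1.1) (c t.1.1.1) t.2 t.1.1.2) (PT.range (hn.comp PT.fst.p1)) ?_
  have f : PT (fun t : ((ι × ℕ) × ℕ) × ℕ => t.1.1.1) := PT.fst.p1.p1
  have a1 : PT (fun t : ((ι × ℕ) × ℕ) × ℕ => t.1.1.2) := PT.fst.p1.p2
  have a2 : PT (fun t : ((ι × ℕ) × ℕ) × ℕ => t.1.2) := PT.fst.p2
  have a3 : PT (fun t : ((ι × ℕ) × ℕ) × ℕ => t.2) := PT.snd
  exact PT.bor (PT.bor (PT.bnot (b f a1 a2)) (PT.bnot (b f a2 a3))) (PT.bnot (b f a3 a1))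

end

theorem PT_verYes : PT verYes := by
  unfold verYes
  have s := pt_side (ι := List Bool × List Bool) PT.fst
  exact PT.band (pt_matB s PT.fst) (pt_facB s PT.fst PT.snd)

theorem PT_verNo : PT verNo := by
  unfold verNo
  have s := pt_side (ι := List Bool × List Bool) PT.fst
  have d : PT (fun p : List Bool × List Bool => decode p.2) := by
    unfold decode
    exact pt_groups (pt_nums PT.snd)
  refine PT.bor (PT.bnot (pt_matB s PT.fst)) (PT.band (pt_clsB s PT.fst (PT.tail d)) ?_)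
  exact pt_labB s (pt_units s PT.fst (PT.tail d)) (PT.headD d (PT.const []))

end TF34
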