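import Pool.Agent.TF34.Rep
import Pool.Agent.TF4.K2

set_option autoImplicit false

namespace TF34

open Finset Pool.Agent.TFC TF4
open scoped Pointwise Classical

theorem K2_mem {n : ℕ} (l : List (Fin n)) (x : Fin n) : memB (x : ℕ) (l.map Fin.val) = true ↔ x ∈ l := by
  rw [memB_iff, List.mem_map]
  constructor
  · rintro ⟨y, hy, hxy⟩
    rwa [← Fin.val_injective hxy]
  · intro hx
    exact ⟨x, hx, rfl⟩

theorem K2_hubs {n : ℕ} (w w' : Fin n) (l : List (Fin n)) (u v : Fin n) :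
    (((decide ((u : ℕ) = w) || decide ((u : ℕ) = w')) && memB (v : ℕ) (l.map Fin.val)) ||
        ((decide ((v : ℕ) = w) || decide ((v : ℕ) = w')) && memB (u : ℕ) (l.map Fin.val))) = true ↔
      s(u, v) ∈ hubs w w' l.toFinset := by
  simp only [Bool.or_eq_true, Bool.and_eq_true, K2_mem, decide_eq_true_eq, hubs,
    mem_union, mem_image, List.mem_toFinset, Fin.val_inj, Sym2.eq_iff]
  constructor
  · rintro (⟨rfl | rfl, h⟩ | ⟨rfl | rfl, h⟩)
    · exact Or.inl ⟨v, h, Or.inl ⟨rfl, rfl⟩⟩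
    · exact Or.inr ⟨v, h, Or.inl ⟨rfl, rfl⟩⟩
    · exact Or.inl ⟨u, h, Or.inr ⟨rfl, rfl⟩⟩
    · exact Or.inr ⟨u, h, Or.inr ⟨rfl, rfl⟩⟩
  · rintro (⟨l, h, ⟨rfl, rfl⟩ | ⟨rfl, rfl⟩⟩ | ⟨l, h, ⟨rfl, rfl⟩ | ⟨rfl, rfl⟩⟩)
    · exact Or.inl ⟨Or.inl rfl, h⟩
    · exact Or.inr ⟨Or.inl rfl, h⟩
    · exact Or.inl ⟨Or.inr rfl, h⟩
    · exact Or.inr ⟨Or.inr rfl, h⟩

theorem K2_xy {n : ℕ} (w w' u v : Fin n) :
    ((decide ((u : ℕ) = w) && decide ((v : ℕ) = w')) ||
      (decide ((u : ℕ) = w') && decide ((v : ℕ) = w))) = true ↔ s(u, v) = s(w, w') := by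
  simp only [Bool.or_eq_true, Bool.and_eq_true, decide_eq_true_eq, Fin.val_inj, Sym2.eq_iff]

/-- (TF34-K2) edges of a cluster. -/
theorem cedge_iff {n : ℕ} {q : List ℕ} {c : CC34 (Fin n)} (h : Rep n q c) (hv : c.Valid) (u v : Fin n) :
    cedge q u v = true ↔ s(u, v) ∈ c.edges := by
  cases c with
  | k4 a b c d =>
    have hq : q = 1 :: [a, b, c, d].map Fin.val := h
    subst hq
    have h1 : cedge (1 :: [a, b, c, d].map Fin.val) u v =
        (memB (u : ℕ) ([a, b, c, d].map Fin.val) && memB (v : ℕ) ([a, b, c, d].map Fin.val) &&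
          !decide ((u : ℕ) = v)) := rfl
    rw [h1]
    obtain ⟨hab, hac, had, hbc, hbd, hcd⟩ := hv
    simp only [Bool.and_eq_true, K2_mem, Bool.not_eq_true', decide_eq_false_iff_not, CC34.edges,
      Fin.val_inj, List.mem_cons, List.not_mem_nil, or_false, mem_insert, mem_singleton, Sym2.eq_iff]
    constructor
    · rintro ⟨⟨rfl | rfl | rfl | rfl, rfl | rfl | rfl | rfl⟩, hne⟩ <;> simp_all
    · rintro ((⟨rfl, rfl⟩ | ⟨rfl, rfl⟩) | (⟨rfl, rfl⟩ | ⟨rfl, rfl⟩) | (⟨rfl, rfl⟩ | ⟨rfl, rfl⟩) |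
        (⟨rfl, rfl⟩ | ⟨rfl, rfl⟩) | (⟨rfl, rfl⟩ | ⟨rfl, rfl⟩) | (⟨rfl, rfl⟩ | ⟨rfl, rfl⟩)) <;>
        simp_all [eq_comm]
  | k2 w w' c L =>
    obtain ⟨ls, rfl, hn, rfl⟩ := h
    have h1 : cedge (0 :: w.val :: w'.val :: c.val :: ls.map Fin.val) u v =
        ((((decide ((u : ℕ) = w) || decide ((u : ℕ) = w')) && memB (v : ℕ) ((c :: ls).map Fin.val)) ||
        ((decide ((v : ℕ) = w) || decide ((v : ℕ) = w')) && memB (u : ℕ) ((c :: ls).map Fin.val))) ||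
        false) := rfl
    rw [h1, Bool.or_false, K2_hubs, List.toFinset_cons]
    rfl
  | k11b w w' L =>
    obtain ⟨ls, rfl, hn, rfl⟩ := h
    have h1 : cedge (2 :: w.val :: w'.val :: ls.map Fin.val) u v =
        ((((decide ((u : ℕ) = w) || decide ((u : ℕ) = w')) && memB (v : ℕ) (ls.map Fin.val)) ||
        ((decide ((v : ℕ) = w) || decide ((v : ℕ) = w')) && memB (u : ℕ) (ls.map Fin.val))) ||
        ((decide ((u : ℕ) = w) && decide ((v : ℕ) = w')) ||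
          (decide ((u : ℕ) = w') && decide ((v : ℕ) = w)))) := rfl
    rw [h1, Bool.or_eq_true, K2_hubs, K2_xy, CC34.edges, mem_insert, or_comm]
  | k11c x y c L =>
    obtain ⟨ls, rfl, hn, rfl⟩ := h
    have h1 : cedge (3 :: x.val :: y.val :: c.val :: ls.map Fin.val) u v =
        ((((decide ((u : ℕ) = x) || decide ((u : ℕ) = y)) && memB (v : ℕ) ((c :: ls).map Fin.val)) ||
        ((decide ((v : ℕ) = x) || decide ((v : ℕ) = y)) && memB (u : ℕ) ((c :: ls).map Fin.val))) ||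
        ((decide ((u : ℕ) = x) && decide ((v : ℕ) = y)) ||
          (decide ((u : ℕ) = y) && decide ((v : ℕ) = x)))) := rfl
    rw [h1, Bool.or_eq_true, K2_hubs, K2_xy, CC34.edges, mem_insert, or_comm, List.toFinset_cons]

/-- (TF34-K2) every cluster has a code. -/
theorem exists_rep {n : ℕ} (c : CC34 (Fin n)) (hv : c.Valid) : ∃ q, Rep n q c := by
  cases c with
  | k4 a b c d => exact ⟨_, rfl⟩
  | k2 w w' c L => exact ⟨_, L.toList, rfl, Finset.nodup_toList _, (Finset.toList_toFinset L).symm⟩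
  | k11b w w' L => exact ⟨_, L.toList, rfl, Finset.nodup_toList _, (Finset.toList_toFinset L).symm⟩
  | k11c x y c L => exact ⟨_, L.toList, rfl, Finset.nodup_toList _, (Finset.toList_toFinset L).symm⟩

end TF34
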