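import Pool.Agent.TF34.K2
import Pool.Agent.TF4.K4

set_option autoImplicit false

namespace TF34

open Finset Pool.Agent.TFC TF4
open scoped Pointwise Classical

/-- (TF34-K4) well-formed codes of clusters. -/
theorem cwf_iff {n : ℕ} {w : List Bool} (hw : matB n w = true) {q : List ℕ} : cwf n w q = true ↔
    ∃ c : CC34 (Fin n), Rep n q c ∧ c.Valid ∧ c.edges ⊆ (gr n w).edgeFinset := by
  constructor
  · intro h
    simp only [cwf, Bool.and_eq_true, List.all_eq_true, decide_eq_true_eq, List.mem_range, Bool.or_eq_true,
      Bool.not_eq_true'] at h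
    obtain ⟨⟨⟨⟨h1, h2⟩, hk⟩, h3⟩, h4⟩ := h
    rw [nodupB_iff] at h1
    have key : ∃ c : CC34 (Fin n), Rep n q c ∧ c.Valid := by
      by_cases h0 : q.getD 0 0 = 0
      · rw [if_pos h0, decide_eq_true_eq] at h3
        match q, h0, h1, h2, h3 with
        | a :: x :: y :: z :: t :: ls, h0, h1, h2, h3 =>
          have ha : a = 0 := h0
          subst ha
          obtain ⟨l', hl'⟩ := K4_lift (n := n) (x :: y :: z :: t :: ls) (fun u hu => h2 u hu)
          match l', hl' with
          | x' :: y' :: z' :: t' :: ls', hl' =>
            simp only [List.map_cons, List.cons.injEq] at hl'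
            obtain ⟨rfl, rfl, rfl, rfl, rfl⟩ := hl'
            have h1' : (x' :: y' :: z' :: t' :: ls').Nodup := by
              apply List.Nodup.of_map Fin.val
              exact h1
            simp only [List.nodup_cons, List.mem_cons, not_or] at h1'
            obtain ⟨⟨a1, a2, a3, a4⟩, ⟨b1, b2, b3⟩, ⟨c1, c2⟩, d1, d2⟩ := h1'
            refine ⟨.k2 x' y' z' (t' :: ls').toFinset, ⟨t' :: ls', rfl, ?_, rfl⟩, a1, a2, b1, ?_, ?_, ?_, ?_⟩
            · simp [d1, d2]
            · simp [a3, a4]
            · simp [b2, b3]
            · simp [c1, c2]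
            · exact ⟨t', by simp⟩
      · rw [if_neg h0] at h3
        by_cases h01 : q.getD 0 0 = 1
        · rw [if_pos h01, decide_eq_true_eq] at h3
          match q, h01, h1, h2, h3 with
          | [a, x, y, z, t], h01, h1, h2, h3 =>
            have ha : a = 1 := h01
            subst ha
            obtain ⟨l', hl'⟩ := K4_lift (n := n) [x, y, z, t] (fun u hu => h2 u hu)
            match l', hl' with
            | [x', y', z', t'], hl' =>
              simp only [List.map_cons, List.map_nil, List.cons.injEq, and_true] at hl'
              obtain ⟨rfl, rfl, rfl, rfl⟩ := hl'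
              have h1' : [x', y', z', t'].Nodup := by
                apply List.Nodup.of_map Fin.val
                exact h1
              simp only [List.nodup_cons, List.mem_cons, List.not_mem_nil, or_false, not_or] at h1'
              obtain ⟨⟨a1, a2, a3⟩, ⟨b1, b2⟩, c1, -⟩ := h1'
              exact ⟨.k4 x' y' z' t', rfl, a1, a2, a3, b1, b2, c1⟩
        · rw [if_neg h01, decide_eq_true_eq] at h3
          match q, h0, h01, hk, h1, h2, h3 with
          | a :: x :: y :: z :: ls, h0, h01, hk, h1, h2, h3 =>
            obtain ⟨l', hl'⟩ := K4_lift (n := n) (x :: y :: z :: ls) (fun u hu => h2 u hu)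
            match l', hl' with
            | x' :: y' :: z' :: ls', hl' =>
              simp only [List.map_cons, List.cons.injEq] at hl'
              obtain ⟨rfl, rfl, rfl, rfl⟩ := hl'
              have h1' : (x' :: y' :: z' :: ls').Nodup := by
                apply List.Nodup.of_map Fin.val
                exact h1
              simp only [List.nodup_cons, List.mem_cons, not_or] at h1'
              obtain ⟨⟨a1, a2, a3⟩, ⟨b1, b2⟩, c1, c2⟩ := h1'
              have h0' : a ≠ 0 := h0
              have h01' : a ≠ 1 := h01
              have hk' : a ≤ 3 := hk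
              have ha : a = 2 ∨ a = 3 := by omega
              rcases ha with rfl | rfl
              · refine ⟨.k11b x' y' (z' :: ls').toFinset, ⟨z' :: ls', rfl, ?_, rfl⟩, a1, ?_, ?_, ?_⟩
                · simp [c1, c2]
                · simp [a2, a3]
                · simp [b1, b2]
                · exact ⟨z', by simp⟩
              · refine ⟨.k11c x' y' z' ls'.toFinset, ⟨ls', rfl, c2, rfl⟩, a1, a2, b1, ?_, ?_, ?_⟩
                · simp [a3]
                · simp [b2]
                · simp [c1]
    obtain ⟨c, hc, hv⟩ := key
    refine ⟨c, hc, hv, ?_⟩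
    intro e he
    induction e using Sym2.ind with
    | _ u v =>
      have h5 : cedge q u v = true := (cedge_iff hc hv u v).2 he
      have h6 : cedge q v u = true := (cedge_iff hc hv v u).2 (by rwa [Sym2.eq_swap])
      have hb1 : bit n w u v = true := by
        rcases h4 u u.2 v v.2 with h | h
        · rw [h5] at h
          cases h
        · exact h
      have hb2 : bit n w v u = true := by
        rcases h4 v v.2 u u.2 with h | h
        · rw [h6] at h
          cases h
        · exact h
      have hne : u ≠ v := by
        rintro rfl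
        simp only [matB, Bool.and_eq_true, List.all_eq_true, decide_eq_true_eq, List.mem_range, Bool.not_eq_true'] at hw
        have := (hw.2 u u.2).1
        rw [hb1] at this
        cases this
      rw [SimpleGraph.mem_edgeFinset, SimpleGraph.mem_edgeSet]
      exact ⟨hb1, hb2, hne⟩
  · rintro ⟨c, hr, hv, hE⟩
    simp only [cwf, Bool.and_eq_true, List.all_eq_true, decide_eq_true_eq, List.mem_range, Bool.or_eq_true,
      Bool.not_eq_true']
    have h4 : ∀ x < n, ∀ x_1 < n, cedge q x x_1 = false ∨ bit n w x x_1 = true := by
      intro u hu v hv'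
      by_cases hc : cedge q u v = true
      · right
        have h7 := hE ((cedge_iff hr hv ⟨u, hu⟩ ⟨v, hv'⟩).1 hc)
        rw [SimpleGraph.mem_edgeFinset, SimpleGraph.mem_edgeSet] at h7
        exact h7.1
      · left
        simpa using hc
    have hmain : ∃ l : List (Fin n), l.Nodup ∧ q.drop 1 = l.map Fin.val ∧ q.getD 0 0 ≤ 3 ∧
        (if q.getD 0 0 = 0 then decide (5 ≤ q.length) else
          if q.getD 0 0 = 1 then decide (q.length = 5) else decide (4 ≤ q.length)) = true := by
      cases c with
      | k4 a b c d =>
        have hq : q = [1, a.val, b.val, c.val, d.val] := hr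
        subst hq
        obtain ⟨a1, a2, a3, b1, b2, c1⟩ := hv
        refine ⟨[a, b, c, d], ?_, rfl, by simp, by simp⟩
        simp only [List.nodup_cons, List.mem_cons, List.not_mem_nil, or_false, not_or]
        exact ⟨⟨a1, a2, a3⟩, ⟨b1, b2⟩, c1, by simp, List.nodup_nil⟩
      | k2 a a' c L =>
        obtain ⟨ls, rfl, hnd, rfl⟩ := hr
        obtain ⟨h1, h2, h3, h5, h6, h7, h8⟩ := hv
        simp only [List.mem_toFinset] at h5 h6 h7
        refine ⟨a :: a' :: c :: ls, ?_, rfl, by simp, ?_⟩
        · simp only [List.nodup_cons, List.mem_cons, not_or]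
          exact ⟨⟨h1, h2, h5⟩, ⟨h3, h6⟩, h7, hnd⟩
        · cases ls with
          | nil => simp at h8
          | cons t ls => simp
      | k11b a a' L =>
        obtain ⟨ls, rfl, hnd, rfl⟩ := hr
        obtain ⟨h1, h5, h6, h8⟩ := hv
        simp only [List.mem_toFinset] at h5 h6
        refine ⟨a :: a' :: ls, ?_, rfl, by simp, ?_⟩
        · simp only [List.nodup_cons, List.mem_cons, not_or]
          exact ⟨⟨h1, h5⟩, h6, hnd⟩
        · cases ls with
          | nil => simp at h8
          | cons t ls => simp
      | k11c a a' c L =>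
        obtain ⟨ls, rfl, hnd, rfl⟩ := hr
        obtain ⟨h1, h2, h3, h5, h6, h7⟩ := hv
        simp only [List.mem_toFinset] at h5 h6 h7
        refine ⟨a :: a' :: c :: ls, ?_, rfl, by simp, by simp⟩
        simp only [List.nodup_cons, List.mem_cons, not_or]
        exact ⟨⟨h1, h2, h5⟩, ⟨h3, h6⟩, h7, hnd⟩
    obtain ⟨l, hl1, hl2, hl3, hl4⟩ := hmain
    refine ⟨⟨⟨⟨?_, ?_⟩, hl3⟩, hl4⟩, h4⟩
    · rw [nodupB_iff, hl2]
      exact hl1.map Fin.val_injective
    · rw [hl2]
      intro x hx
      rw [List.mem_map] at hx
      obtain ⟨y, -, rfl⟩ := hx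
      exact y.2

end TF34
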