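import Pool.Agent.TF34.Ver
import Pool.Agent.TF34.Cl

set_option autoImplicit false

namespace TF34

open Finset Pool.Agent.TFC

/-- the list `q` describes the cluster `c` -/
def Rep (n : ℕ) (q : List ℕ) : CC34 (Fin n) → Prop
  | .k4 a b c v => q = [1, a.val, b.val, c.val, v.val]
  | .k2 w w' c L => ∃ ls : List (Fin n), q = 0 :: w.val :: w'.val :: c.val :: ls.map Fin.val ∧ ls.Nodup ∧
      L = ls.toFinset
  | .k11b w w' L => ∃ ls : List (Fin n), q = 2 :: w.val :: w'.val :: ls.map Fin.val ∧ ls.Nodup ∧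
      L = ls.toFinset
  | .k11c x y c L => ∃ ls : List (Fin n), q = 3 :: x.val :: y.val :: c.val :: ls.map Fin.val ∧ ls.Nodup ∧
      L = ls.toFinset

end TF34
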