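import Pool.Agent.TF4.Ver

set_option autoImplicit false

/-! [TF34] certificates for graphs without 2-factor without cycles of length 3 and 4, given by computable functions on
lists. -/

namespace TF34

open Finset Pool.Agent.TFC TF4

/-- `F` is a 2-factor of `G` without cycles of length 3 and 4 -/
structure IsFac34 {V : Type} (G F : SimpleGraph V) : Prop extends IsFac G F where
  free3 : ∀ a b c, F.Adj a b → F.Adj b c → F.Adj c a → False

/-! ### clusters

A cluster is a list of naturals: `0 :: x :: y :: c :: ls` (`ls` not empty) is the complete bipartite graph with the sides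
`{x, y}` and `c :: ls`, with the chosen edge `x c`; `1 :: a :: b :: c :: v :: []` is the complete graph on four vertices;
`2 :: x :: y :: ls` (`ls` not empty) is the complete bipartite graph with the sides `{x, y}` and `ls`, and the edge `x y`;
`3 :: x :: y :: c :: ls` is the complete bipartite graph with the sides `{x, y}` and `c :: ls`, and the edge `x y`. -/

/-- `u v` is an edge of the cluster `q` -/
def cedge (q : List ℕ) (u v : ℕ) : Bool :=
  if q.getD 0 0 = 1 then memB u (q.drop 1) && memB v (q.drop 1) && !decide (u = v)
  else
    ((decide (u = q.getD 1 0) || decide (u = q.getD 2 0)) && memB v (q.drop 3)) ||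
    ((decide (v = q.getD 1 0) || decide (v = q.getD 2 0)) && memB u (q.drop 3)) ||
    (decide (2 ≤ q.getD 0 0) && ((decide (u = q.getD 1 0) && decide (v = q.getD 2 0)) ||
      (decide (u = q.getD 2 0) && decide (v = q.getD 1 0))))

/-- `q` is a cluster of the graph coded by `w` -/
def cwf (n : ℕ) (w : List Bool) (q : List ℕ) : Bool :=
  nodupB (q.drop 1) && (q.drop 1).all (fun u => decide (u < n)) && decide (q.getD 0 0 ≤ 3) &&
  (if q.getD 0 0 = 0 then decide (5 ≤ q.length) else
    if q.getD 0 0 = 1 then decide (q.length = 5) else decide (4 ≤ q.length)) &&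
  (List.range n).all (fun u => (List.range n).all (fun v => !cedge q u v || bit n w u v))

/-- the units of the cluster `q` -/
def cunits (q : List ℕ) : List (List ℕ × List ℕ) :=
  if q.getD 0 0 = 0 then
    (q.drop 4).map (fun l => ([l], [q.getD 1 0, q.getD 2 0])) ++
      [([q.getD 1 0], q.drop 3), ([q.getD 2 0], [q.getD 3 0])]
  else if q.getD 0 0 = 1 then
    [([q.getD 1 0], [q.getD 4 0]), ([q.getD 2 0], [q.getD 1 0, q.getD 2 0, q.getD 4 0]),
      ([q.getD 3 0], q.drop 1)]
  else if q.getD 0 0 = 2 then
    (q.drop 3).map (fun l => ([l], [q.getD 1 0, q.getD 2 0])) ++ [([q.getD 1 0], q.drop 2)]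
  else
    (q.drop 4).map (fun l => ([l], [q.getD 1 0, q.getD 2 0])) ++
      [([q.getD 1 0], q.drop 2), ([q.getD 2 0], [q.getD 3 0, q.getD 1 0])]

/-- the clusters are subgraphs of the graph and have no common edge -/
def clsB (n : ℕ) (w : List Bool) (cls : List (List ℕ)) : Bool :=
  cls.all (fun q => cwf n w q) &&
  (List.range n).all (fun u => (List.range n).all (fun v =>
    decide ((cls.filter (fun q => cedge q u v)).length ≤ 1)))

/-- the units of the edges in no cluster -/
def ounits (n : ℕ) (w : List Bool) (cls : List (List ℕ)) : List (List ℕ × List ℕ) :=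
  (List.range n).flatMap (fun u => ((List.range u).filter (fun v =>
    bit n w u v && !cls.any (fun q => cedge q u v))).map (fun v => ([u], [v])))

/-- all units -/
def units (n : ℕ) (w : List Bool) (cls : List (List ℕ)) : List (List ℕ × List ℕ) :=
  cls.flatMap (fun q => cunits q) ++ ounits n w cls

/-! ### the verifiers -/

/-- `c` is the adjacency matrix of a 2-factor without triangles and 4-cycles of the graph coded by `w` -/
def facB (n : ℕ) (w c : List Bool) : Bool :=
  TF4.facB n w c &&
  (List.range n).all (fun i => (List.range n).all (fun j => (List.range n).all (fun k =>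
      !bit n c i j || !bit n c j k || !bit n c k i)))

/-- verifier for 2F({3,4}) -/
def verYes (p : List Bool × List Bool) : Bool := matB (side p.1) p.1 && facB (side p.1) p.1 p.2

/-- verifier for the complement of 2F({3,4}) -/
def verNo (p : List Bool × List Bool) : Bool :=
  !matB (side p.1) p.1 || (clsB (side p.1) p.1 (decode p.2).tail &&
    labB (side p.1) (units (side p.1) p.1 (decode p.2).tail) ((decode p.2).headD []))

end TF34
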